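import Pool.Agent.W744.SF.Stubs

set_option autoImplicit false

/-!
SF-9 of helper744's project (MP_86b0a6_an): the Koopman representation of the automorphism group
of the interval is jointly continuous.
-/

namespace Pool.Agent.W63.SFKoop

open MeasureTheory Set Filter Topology
open Pool.H359R3 Pool.H359R3.WH Pool.H359R3.IX
open Pool.Agent.W744.SF
open scoped ENNReal symmDiff

attribute [local instance] Pool.Agent.W744.SF.us

theorem main : S_Koop := by
  unfold S_Koop
  have key : Continuous (fun q : Lp ℂ 2 lam × Aut =>
      Lp.compMeasurePreserving (⇑q.2.1) q.2.2 q.1) := by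
    refine continuous_prod_of_dense_continuous_lipschitzWith _ 1
      (MeasureTheory.Lp.simpleFunc.dense (by norm_num)) ?_
      fun f ↦ (Lp.isometry_compMeasurePreserving f.2).lipschitz
    intro f hf
    lift f to Lp.simpleFunc ℂ 2 lam using hf
    induction f using Lp.simpleFunc.induction (p := 2) two_ne_zero (by norm_num) with
    | add hfp hgp _ ihf ihg => exact ihf.add ihg
    | @indicatorConst c s hs hνs =>
      dsimp only [Lp.simpleFunc.coe_indicatorConst, Lp.indicatorConstLp_compMeasurePreserving]
      refine continuous_indicatorConstLp_set (by norm_num) fun T ↦ ?_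
      exact of_tendsto_un F0 (𝓝 T) id T tendsto_id s hs hνs
  exact key.comp continuous_swap

end Pool.Agent.W63.SFKoop
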